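import Mathlib
import Pool.Agent.Helper92.BW.GoalsC
import Pool.Agent.Helper38.FR.PTF

/-!
# Project BW (MP_481f43_lc), packet PTA: the tables in polynomial time
-/

set_option autoImplicit false

namespace Pool.Agent.Helper93.BW

open Pool.Agent.Helper81.CC Pool.Agent.Bin Pool.Agent.Helper92.VP Pool.Agent.Helper92.BW
open Pool.Agent.Helper92.FR

/-! ### The bound -/

/-- A bound for the entries of the table `v`. -/
def mm (B : ℕ) (p : ℕ → ℕ) (v : ℕ) : ℕ :=
  B * ∏ c : Fin v, if p c.1 = v then mm B p c.1 else 1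
termination_by v
decreasing_by exact c.2

theorem mm_eq (B : ℕ) (p : ℕ → ℕ) (v : ℕ) :
    mm B p v = B * ∏ c ∈ Finset.range v, if p c = v then mm B p c else 1 := by
  rw [mm, ← Fin.prod_univ_eq_prod_range (fun c => if p c = v then mm B p c else 1) v]

theorem mm_pos {B : ℕ} (hB : 1 ≤ B) (p : ℕ → ℕ) (v : ℕ) : 1 ≤ mm B p v := by
  induction v using Nat.strong_induction_on with
  | _ v ih =>
    rw [mm_eq]
    apply Nat.mul_pos hB
    apply Finset.prod_pos
    intro c hc
    split_ifs
    · exact ih c (Finset.mem_range.1 hc)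
    · exact Nat.one_pos

/-- The product over the alive variables. -/
def FF (B : ℕ) (p : ℕ → ℕ) (v : ℕ) : ℕ := ∏ c ∈ Finset.range v, if v ≤ p c then mm B p c else 1

theorem mm_le_FF {B : ℕ} (hB : 1 ≤ B) (p : ℕ → ℕ) (v : ℕ) : mm B p v ≤ B * FF B p v := by
  rw [mm_eq, FF]
  apply Nat.mul_le_mul_left
  apply Finset.prod_le_prod'
  intro c hc
  split_ifs with h1 h2 h2
  · exact le_rfl
  · exact absurd h1.ge (by omega)
  · exact mm_pos hB p c
  · exact le_rfl

theorem FF_succ {B : ℕ} (hB : 1 ≤ B) (p : ℕ → ℕ) (v : ℕ) : FF B p (v + 1) ≤ B * FF B p v := by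
  have h1 : FF B p (v + 1) ≤ (∏ c ∈ Finset.range v, if v + 1 ≤ p c then mm B p c else 1) *
      mm B p v := by
    rw [FF, Finset.prod_range_succ]
    apply Nat.mul_le_mul_left
    split_ifs
    · exact le_rfl
    · exact mm_pos hB p v
  have h2 : (∏ c ∈ Finset.range v, if v + 1 ≤ p c then mm B p c else 1) * mm B p v =
      B * FF B p v := by
    rw [mm_eq B p v, FF, ← mul_assoc, mul_comm _ B, mul_assoc, ← Finset.prod_mul_distrib]
    congr 1
    apply Finset.prod_congr rfl
    intro c _
    by_cases h3 : v + 1 ≤ p c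
    · rw [if_pos h3, if_neg (by omega), if_pos (by omega), mul_one]
    · by_cases h4 : p c = v
      · rw [if_neg h3, if_pos h4, if_pos (by omega), one_mul]
      · rw [if_neg h3, if_neg h4, if_neg (by omega), one_mul]
  exact h1.trans h2.le

theorem FF_le {B : ℕ} (hB : 1 ≤ B) (p : ℕ → ℕ) (v : ℕ) : FF B p v ≤ B ^ v := by
  induction v with
  | zero => simp [FF]
  | succ v ih =>
    calc FF B p (v + 1) ≤ B * FF B p v := FF_succ hB p v
      _ ≤ B * B ^ v := Nat.mul_le_mul_left _ ih
      _ = B ^ (v + 1) := by rw [pow_succ, mul_comm]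

theorem mm_le {B : ℕ} (hB : 1 ≤ B) (p : ℕ → ℕ) (v : ℕ) : mm B p v ≤ B ^ (v + 1) := by
  calc mm B p v ≤ B * FF B p v := mm_le_FF hB p v
    _ ≤ B * B ^ v := Nat.mul_le_mul_left _ (FF_le hB p v)
    _ = B ^ (v + 1) := by rw [pow_succ, mul_comm]

/-! ### The entries -/

/-- All entries of the tables are bounded. -/
def TI (K B : ℕ) (p : ℕ → ℕ) (v : ℕ) (T : List (List BN)) : Prop :=
  T.length = v ∧ (∀ c, (T.getD c []).length ≤ K) ∧
    ∀ c < v, ∀ x ∈ T.getD c [], x.val ≤ mm B p c

theorem list_sum_le {β : Type} (l : List β) (f : β → ℕ) (M : ℕ) (h : ∀ x ∈ l, f x ≤ M) :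
    (l.map f).sum ≤ l.length * M := by
  induction l with
  | nil => simp
  | cons b l ih =>
    have h1 := h b List.mem_cons_self
    have h2 := ih fun x hx => h x (List.mem_cons_of_mem _ hx)
    simp only [List.map_cons, List.sum_cons, List.length_cons]
    calc f b + (l.map f).sum ≤ M + l.length * M := Nat.add_le_add h1 h2
      _ = (l.length + 1) * M := by ring

theorem list_prod_le (v : ℕ) (f g : ℕ → ℕ) (h : ∀ c < v, f c ≤ g c) :
    ((List.range v).map f).prod ≤ ∏ c ∈ Finset.range v, g c := by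
  induction v with
  | zero => simp
  | succ v ih =>
    rw [List.range_succ, List.map_append, List.prod_append, Finset.prod_range_succ]
    simp only [List.map_cons, List.map_nil, List.prod_cons, List.prod_nil, mul_one]
    exact Nat.mul_le_mul (ih fun c hc => h c (by omega)) (h v (by omega))

theorem ent_le (k n G : ℕ) (cr : List (List Qn × Qn)) (Fs : List (List (List Qn × List Qn))) (par : List ℕ)
    (T : List (List BN)) (v e K : ℕ) (hT : TI K (2 * G + 1) (fun c => par.getD c c) v T) :
    (ent k n G cr Fs par T v e).val ≤ mm (2 * G + 1) (fun c => par.getD c c) v := by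
  unfold ent
  rw [BN.val_sum, List.map_map, mm_eq]
  refine (list_sum_le _ _ (∏ c ∈ Finset.range v, if par.getD c c = v then
    mm (2 * G + 1) (fun c => par.getD c c) c else 1) ?_).trans (by rw [List.length_range])
  intro i _
  simp only [Function.comp_apply]
  split_ifs with h
  · rw [BN.val_prod, List.map_map]
    apply list_prod_le
    intro c hc
    simp only [Function.comp_apply]
    split_ifs with h1
    · cases cidx k (Fs.getD c []) G (gpt k n G (Fs.getD v []) e i) with
      | none => simp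
      | some e' =>
        simp only [Option.map_some, Option.getD_some]
        by_cases he : e' < (T.getD c []).length
        · rw [List.getD_eq_getElem _ _ he]
          exact hT.2.2 c hc _ (List.getElem_mem he)
        · rw [List.getD_eq_default _ _ (by omega)]
          simp
    · simp
  · simp

/-- The tables of the first `v` variables. -/
def tv (k n G : ℕ) (cr : List (List Qn × Qn)) (Fs : List (List (List Qn × List Qn))) (par : List ℕ) (v : ℕ) :
    List (List BN) :=
  (List.range v).foldl (fun T v =>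
    T ++ [(List.range ((2 * G + 1) ^ k)).map fun e => ent k n G cr Fs par T v e]) []

theorem tv_inv (k n G : ℕ) (cr : List (List Qn × Qn)) (Fs : List (List (List Qn × List Qn))) (par : List ℕ) (v : ℕ) :
    TI ((2 * G + 1) ^ k) (2 * G + 1) (fun c => par.getD c c) v (tv k n G cr Fs par v) := by
  induction v with
  | zero => exact ⟨rfl, fun c => by simp [tv], fun c hc => absurd hc (by omega)⟩
  | succ v ih =>
    have e1 : tv k n G cr Fs par (v + 1) = tv k n G cr Fs par v ++
        [(List.range ((2 * G + 1) ^ k)).map fun e =>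
          ent k n G cr Fs par (tv k n G cr Fs par v) v e] := by
      unfold tv
      rw [List.range_succ, List.foldl_append]
      rfl
    have hent := fun e => ent_le k n G cr Fs par _ v e _ ih
    obtain ⟨h1, h2, h3⟩ := ih
    rw [e1]
    refine ⟨by rw [List.length_append, h1]; rfl, ?_, ?_⟩
    · intro c
      rcases Nat.lt_trichotomy c v with hc | hc | hc
      · rw [List.getD_append _ _ _ _ (by omega)]
        exact h2 c
      · subst hc
        rw [List.getD_append_right _ _ _ _ (by omega), h1, Nat.sub_self]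
        simp
      · rw [List.getD_eq_default _ _ (by rw [List.length_append, h1]; simp; omega)]
        simp
    · intro c hc x hx
      rcases Nat.lt_or_ge c v with hc' | hc'
      · rw [List.getD_append _ _ _ _ (by omega)] at hx
        exact h3 c hc' x hx
      · obtain rfl : c = v := by omega
        rw [List.getD_append_right _ _ _ _ (by omega), h1, Nat.sub_self] at hx
        simp only [List.getD_cons_zero, List.mem_map, List.mem_range] at hx
        obtain ⟨e, -, rfl⟩ := hx
        exact hent e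

theorem sz_list' {β : Type} [ToData β] (c : ℕ) : ∀ l : List β, (∀ x ∈ l, sz x ≤ c) →
    sz l ≤ (c + 1) * l.length + 1
  | [], _ => by simp
  | b :: l, h => by
    have h1 := sz_list' c l fun x hx => h x (List.mem_cons_of_mem _ hx)
    have h2 := h b List.mem_cons_self
    simp only [sz_cons, List.length_cons]
    nlinarith

theorem ti_sz {K B v n : ℕ} {p : ℕ → ℕ} {T : List (List BN)} (hB : 1 ≤ B) (hv : v ≤ n)
    (h : TI K B p v T) :
    sz T ≤ ((4 * (B * (n + 1) + 1) + 1 + 1) * K + 1 + 1) * n + 1 := by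
  obtain ⟨h1, h2, h3⟩ := h
  refine (sz_list' ((4 * (B * (n + 1) + 1) + 1 + 1) * K + 1) T ?_).trans ?_
  · intro t ht
    obtain ⟨c, hc, rfl⟩ := List.mem_iff_getElem.1 ht
    have e1 : T[c] = T.getD c [] := (List.getD_eq_getElem _ _ hc).symm
    rw [e1]
    refine (sz_list' (4 * (B * (n + 1) + 1) + 1) (T.getD c []) ?_).trans
      (Nat.add_le_add_right (Nat.mul_le_mul_left _ (h2 c)) 1)
    intro x hx
    apply sz_le_of_lt
    have h4 := h3 c (by omega) x hx
    calc x.val ≤ mm B p c := h4
      _ ≤ B ^ (c + 1) := mm_le hB p c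
      _ ≤ B ^ (n + 1) := Nat.pow_le_pow_right hB (by omega)
      _ ≤ (2 ^ B) ^ (n + 1) := Nat.pow_le_pow_left Nat.lt_two_pow_self.le _
      _ = 2 ^ (B * (n + 1)) := by rw [← pow_mul]
      _ < 2 ^ (B * (n + 1) + 1) := Nat.pow_lt_pow_right (by norm_num) (by omega)
  · rw [h1]
    exact Nat.add_le_add_right (Nat.mul_le_mul_left _ hv) 1

/-! ### Polynomial time -/

theorem pt_gpt (h : PfrStmt) (k : ℕ) {α : Type} [ToData α] {n G e i : α → ℕ} {F : α → List (List Qn × List Qn)}
    (hn : PolyTime n) (hG : PolyTime G) (he : PolyTime e) (hi : PolyTime i) (hF : PolyTime F) :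
    PolyTime (fun a => gpt k (n a) (G a) (F a) (e a) (i a)) :=
  (h k α n n G e i (fun _ => []) (fun _ => []) F (fun _ => []) hn hn hG he hi (by fun_prop)
    (by fun_prop) hF (by fun_prop)).2.2.1

theorem pt_cidx (h : PfrStmt) (k : ℕ) {α : Type} [ToData α] {G : α → ℕ} {F : α → List (List Qn × List Qn)}
    {x : α → List Qn} (hG : PolyTime G) (hF : PolyTime F) (hx : PolyTime x) :
    PolyTime (fun a => cidx k (F a) (G a) (x a)) :=
  (h k α G G G G G (fun _ => []) (fun _ => []) F x hG hG hG hG hG (by fun_prop)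
    (by fun_prop) hF hx).2.2.2.1

theorem pt_lowr (h : PfoStmt) {α : Type} [ToData α] {n : α → ℕ} {r : α → List Qn × Qn}
    (hn : PolyTime n) (hr : PolyTime r) : PolyTime (fun a => lowr (n a) (r a)) :=
  (h α n n (fun _ => []) (fun _ => []) r hn hn (by fun_prop) (by fun_prop) hr).2

theorem pt_ent (hO : PfoStmt) (hR : PfrStmt) (k : ℕ) {α : Type} [ToData α] {n G v e : α → ℕ}
    {cr : α → List (List Qn × Qn)} {Fs : α → List (List (List Qn × List Qn))} {par : α → List ℕ}
    {T : α → List (List BN)} (hn : PolyTime n) (hG : PolyTime G) (hv : PolyTime v)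
    (he : PolyTime e) (hcr : PolyTime cr) (hFs : PolyTime Fs) (hpar : PolyTime par)
    (hT : PolyTime T) :
    PolyTime (fun a => ent k (n a) (G a) (cr a) (Fs a) (par a) (T a) (v a) (e a)) := by
  unfold ent
  -- functions of `(a, i)`
  have p1 : PolyTime (fun z : α × ℕ => z.1) := by fun_prop
  have p2 : PolyTime (fun z : α × ℕ => z.2) := by fun_prop
  have n1 : PolyTime (fun z : α × ℕ => n z.1) := PolyTime.comp hn p1
  have G1 : PolyTime (fun z : α × ℕ => G z.1) := PolyTime.comp hG p1
  have v1 : PolyTime (fun z : α × ℕ => v z.1) := PolyTime.comp hv p1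
  have e1 : PolyTime (fun z : α × ℕ => e z.1) := PolyTime.comp he p1
  have cr1 : PolyTime (fun z : α × ℕ => cr z.1) := PolyTime.comp hcr p1
  have Fs1 : PolyTime (fun z : α × ℕ => Fs z.1) := PolyTime.comp hFs p1
  have par1 : PolyTime (fun z : α × ℕ => par z.1) := PolyTime.comp hpar p1
  have T1 : PolyTime (fun z : α × ℕ => T z.1) := PolyTime.comp hT p1
  have g1 : PolyTime (fun z : α × ℕ => gpt k (n z.1) (G z.1) ((Fs z.1).getD (v z.1) []) (e z.1)
      z.2) := pt_gpt hR k n1 G1 e1 p2 (by fun_prop)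
  -- functions of `((a, i), r)`
  have q1 : PolyTime (fun z : (α × ℕ) × (List Qn × Qn) => z.1) := by fun_prop
  have q11 : PolyTime (fun z : (α × ℕ) × (List Qn × Qn) => z.1.1) := by fun_prop
  have n2 : PolyTime (fun z : (α × ℕ) × (List Qn × Qn) => n z.1.1) := PolyTime.comp hn q11
  have v2 : PolyTime (fun z : (α × ℕ) × (List Qn × Qn) => v z.1.1) := PolyTime.comp hv q11
  have g2 : PolyTime (fun z : (α × ℕ) × (List Qn × Qn) => gpt k (n z.1.1) (G z.1.1)
      ((Fs z.1.1).getD (v z.1.1) []) (e z.1.1) z.1.2) := PolyTime.comp g1 q1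
  have l2 : PolyTime (fun z : (α × ℕ) × (List Qn × Qn) => lowr (n z.1.1) z.2) :=
    pt_lowr hO n2 (by fun_prop)
  have c1 : PolyTime (fun z : α × ℕ => (cr z.1).all fun r => !(decide (lowr (n z.1) r = v z.1)) ||
      Qn.le (Qn.neg r.2) (dot r.1 (gpt k (n z.1) (G z.1) ((Fs z.1).getD (v z.1) []) (e z.1)
        z.2))) := by
    apply PolyTime.all cr1
    fun_prop
  -- functions of `((a, i), c)`
  have r1 : PolyTime (fun z : (α × ℕ) × ℕ => z.1) := by fun_prop
  have r2 : PolyTime (fun z : (α × ℕ) × ℕ => z.2) := by fun_prop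
  have r11 : PolyTime (fun z : (α × ℕ) × ℕ => z.1.1) := by fun_prop
  have G3 : PolyTime (fun z : (α × ℕ) × ℕ => G z.1.1) := PolyTime.comp hG r11
  have v3 : PolyTime (fun z : (α × ℕ) × ℕ => v z.1.1) := PolyTime.comp hv r11
  have Fs3 : PolyTime (fun z : (α × ℕ) × ℕ => Fs z.1.1) := PolyTime.comp hFs r11
  have par3 : PolyTime (fun z : (α × ℕ) × ℕ => par z.1.1) := PolyTime.comp hpar r11
  have T3 : PolyTime (fun z : (α × ℕ) × ℕ => T z.1.1) := PolyTime.comp hT r11
  have g3 : PolyTime (fun z : (α × ℕ) × ℕ => gpt k (n z.1.1) (G z.1.1)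
      ((Fs z.1.1).getD (v z.1.1) []) (e z.1.1) z.1.2) := PolyTime.comp g1 r1
  have i3 : PolyTime (fun z : (α × ℕ) × ℕ => cidx k ((Fs z.1.1).getD z.2 []) (G z.1.1)
      (gpt k (n z.1.1) (G z.1.1) ((Fs z.1.1).getD (v z.1.1) []) (e z.1.1) z.1.2)) :=
    pt_cidx hR k G3 (by fun_prop) g3
  have s1 : PolyTime (fun w : ((α × ℕ) × ℕ) × ℕ => w.1.1.1) := by fun_prop
  have T4 : PolyTime (fun w : ((α × ℕ) × ℕ) × ℕ => T w.1.1.1) := PolyTime.comp hT s1
  have m3 : PolyTime (fun z : (α × ℕ) × ℕ => ((cidx k ((Fs z.1.1).getD z.2 []) (G z.1.1)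
      (gpt k (n z.1.1) (G z.1.1) ((Fs z.1.1).getD (v z.1.1) []) (e z.1.1) z.1.2)).map fun e' =>
          ((T z.1.1).getD z.2 []).getD e' (⟨0⟩ : BN)).getD ⟨0⟩) := by
    apply PolyTime.option_getD _ (by fun_prop)
    apply PolyTime.option_map i3
    fun_prop
  have t3 : PolyTime (fun z : (α × ℕ) × ℕ => if (par z.1.1).getD z.2 z.2 = v z.1.1 then
      ((cidx k ((Fs z.1.1).getD z.2 []) (G z.1.1)
        (gpt k (n z.1.1) (G z.1.1) ((Fs z.1.1).getD (v z.1.1) []) (e z.1.1) z.1.2)).map fun e' =>
          ((T z.1.1).getD z.2 []).getD e' (⟨0⟩ : BN)).getD ⟨0⟩ else ⟨1⟩) := by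
    apply PolyTime.itep (by fun_prop) m3 (by fun_prop)
  have u1 : PolyTime (fun z : α × ℕ => BN.prod ((List.range (v z.1)).map fun c =>
      if (par z.1).getD c c = v z.1 then
        ((cidx k ((Fs z.1).getD c []) (G z.1) (gpt k (n z.1) (G z.1) ((Fs z.1).getD (v z.1) [])
          (e z.1) z.2)).map fun e' => ((T z.1).getD c []).getD e' (⟨0⟩ : BN)).getD ⟨0⟩
      else ⟨1⟩)) := by
    apply PolyTime.bn_prod
    apply PolyTime.list_map (PolyTime.range v1)
    exact t3
  apply PolyTime.bn_sum
  apply PolyTime.list_map (by fun_prop)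
  exact PolyTime.ite c1 u1 (by fun_prop)

theorem pta (hO : PfoStmt) (hR : PfrStmt) : PtaStmt := by
  intro k α _ n G cr Fs par hn hG hcr hFs hpar
  have p1 : PolyTime (fun z : α × List (List BN) × ℕ => z.1) := by fun_prop
  have q1 : PolyTime (fun z : (α × List (List BN) × ℕ) × ℕ => z.1.1) := by fun_prop
  have n2 : PolyTime (fun z : (α × List (List BN) × ℕ) × ℕ => n z.1.1) :=
    PolyTime.comp hn q1
  have G1 : PolyTime (fun z : α × List (List BN) × ℕ => G z.1) := PolyTime.comp hG p1
  have G2 : PolyTime (fun z : (α × List (List BN) × ℕ) × ℕ => G z.1.1) := PolyTime.comp hG q1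
  have cr2 : PolyTime (fun z : (α × List (List BN) × ℕ) × ℕ => cr z.1.1) :=
    PolyTime.comp hcr q1
  have Fs2 : PolyTime (fun z : (α × List (List BN) × ℕ) × ℕ => Fs z.1.1) :=
    PolyTime.comp hFs q1
  have par2 : PolyTime (fun z : (α × List (List BN) × ℕ) × ℕ => par z.1.1) :=
    PolyTime.comp hpar q1
  have e2 : PolyTime (fun z : (α × List (List BN) × ℕ) × ℕ =>
      ent k (n z.1.1) (G z.1.1) (cr z.1.1) (Fs z.1.1) (par z.1.1) z.1.2.1 z.1.2.2 z.2) :=
    pt_ent hO hR k n2 G2 (by fun_prop) (by fun_prop) cr2 Fs2 par2 (by fun_prop)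
  have hstep : PolyTime (fun z : α × List (List BN) × ℕ => z.2.1 ++
      [(List.range ((2 * G z.1 + 1) ^ k)).map fun e =>
        ent k (n z.1) (G z.1) (cr z.1) (Fs z.1) (par z.1) z.2.1 z.2.2 e]) := by
    apply PolyTime.append (by fun_prop)
    apply PolyTime.list_cons _ (by fun_prop)
    apply PolyTime.list_map (PolyTime.range (PolyTime.pow (by fun_prop) k))
    exact e2
  have hB : PBd (fun a => 2 * G a + 1) :=
    ((PBd.const 2).mul (PBd.nat hG)).add (PBd.const 1)
  have hK : PBd (fun a => (2 * G a + 1) ^ k) :=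
    PBd.nat (PolyTime.pow (by fun_prop) k)
  have hBd : PBd (fun a => ((4 * ((2 * G a + 1) * (n a + 1) + 1) + 1 + 1) * (2 * G a + 1) ^ k +
      1 + 1) * n a + 1) :=
    (((((((((PBd.const 4).mul ((hB.mul ((PBd.nat hn).add (PBd.const 1))).add
      (PBd.const 1))).add (PBd.const 1)).add (PBd.const 1)).mul hK).add (PBd.const 1)).add
        (PBd.const 1)).mul (PBd.nat hn)).add (PBd.const 1))
  refine PolyTime.foldl_bd (l := fun a => List.range (n a)) (s0 := fun _ => ([] : List (List BN)))
    (step := fun a T v => T ++ [(List.range ((2 * G a + 1) ^ k)).map fun e =>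
      ent k (n a) (G a) (cr a) (Fs a) (par a) T v e]) (by fun_prop) (by fun_prop) hstep hBd ?_
  intro a l' hl'
  have h1 : l' = List.range (min l'.length (n a)) := by
    have := List.prefix_iff_eq_take.1 hl'
    rw [List.take_range] at this
    exact this
  rw [h1]
  exact ti_sz (by omega) (Nat.min_le_right _ _) (tv_inv k (n a) (G a) (cr a) (Fs a) (par a)
    (min l'.length (n a)))

end Pool.Agent.Helper93.BW
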